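import Pool.Agent.CSLBT.TopMain

namespace Pool.Agent.Results.MP_d539bc_co.CSLowerBound

open Pool.Agent.CSLBT

/-- The lower bound theorem for centrally symmetric simplicial spheres, connected simplicial
manifolds, normal pseudomanifolds and strongly connected pseudomanifolds, with the
characterisation of the equality case. -/
theorem result {V : Type*} [Fintype V] [DecidableEq V] {d : ℕ} (hd : 4 ≤ d)
    (K : AbstractSimplicialComplex V) (φ : V → V) (hcs : IsCS K φ)
    (hK : IsSimplicialSphere K (d - 1) ∨ IsConnectedManifold K (d - 1) ∨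
      IsNormalPseudomanifold K d ∨ IsPseudomanifold K d) :
    ((d.choose 2 : ℕ) : ℤ) - (d : ℤ) ≤ g2 K d ∧
    (g2 K d = ((d.choose 2 : ℕ) : ℤ) - (d : ℤ) ↔
      ∃ (P : Set (Fin d → ℝ)) (p : V → Fin d → ℝ), SymStackedPoly d P ∧
        IsBoundaryComplex K P p) ∧
    (g2 K d = ((d.choose 2 : ℕ) : ℤ) - (d : ℤ) →
      ∃ (P : Set (Fin d → ℝ)) (p : V → Fin d → ℝ), SymStackedPoly d P ∧
        IsBoundaryComplex K P p ∧ ∀ x, p (φ x) = - p x) :=
  main_all hd hcs hK

end Pool.Agent.Results.MP_d539bc_co.CSLowerBound
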